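import Pool.Agent.Helper8_HK.Stmt1

/-!
# Squad HK, module FOU: the coefficient `c_1` is the Fourier coefficient at the trivial ideal
-/

set_option autoImplicit false

namespace Pool.Agent.HK.H81

open Polynomial

theorem fou (hVAL : VALStmt) : FOUStmt := by
  classical
  intro F _ _ n φ hh hi h0 ψ hψ
  obtain ⟨-, -, hv, -, -, -, hinv⟩ := hVAL F ℤ φ hh
  obtain ⟨-, hc, -, -⟩ := hinv n hi
  have hv1 := hv 1 1 0
  have e1 : ∀ s : F, φ (1 * mat ((unif F) ^ ((1:ℤ) + 1)) (0 + cst F s * (unif F) ^ (1:ℤ)) 0 1) =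
      val φ 2 (cst F s * unif F) := by
    intro s
    rw [one_mul, zero_add, zpow_one]
    rfl
  have e2 : φ (1 * mat ((unif F) ^ (1:ℤ)) 0 0 1) = 0 := by
    rw [one_mul]; exact h0
  rw [Finset.sum_congr rfl (fun s _ => e1 s), e2] at hv1
  have e3 : ∀ s : F, s ≠ 0 → val φ 2 (cst F s * unif F) = val φ 2 (unif F) := fun s hs => hc 2 (unif F) s hs
  set A : ℤ := val φ 2 (unif F) with hA
  set B : ℤ := val φ 2 (cst F 0 * unif F) with hB
  have e4 : ∀ s : F, val φ 2 (cst F s * unif F) = A + (if s = 0 then B - A else 0) := by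
    intro s
    by_cases hs : s = 0
    · subst hs; rw [if_pos rfl]; ring
    · rw [if_neg hs, e3 s hs, add_zero]
  have e5 : (Fintype.card F : ℤ) * A + (B - A) = 0 := by
    rw [← hv1, Finset.sum_congr rfl (fun s _ => e4 s), Finset.sum_add_distrib,
      Finset.sum_ite_eq' Finset.univ (0:F) (fun _ => B - A)]
    simp
  have e6 : ∑ u : F, ψ (-u) = 0 := by
    have h1 : ∑ u : F, ψ (-u) = ∑ u : F, ψ u := Fintype.sum_equiv (Equiv.neg F) _ _ (fun u => rfl)
    rw [h1]
    exact AddChar.sum_eq_zero_of_ne_one hψ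
  have e7 : ∑ u : F, ((val φ 2 (cst F u * unif F) : ℤ) : ℂ) * ψ (-u) = ((B - A : ℤ) : ℂ) := by
    have h1 : ∀ u : F, ((val φ 2 (cst F u * unif F) : ℤ) : ℂ) * ψ (-u) =
        (A : ℂ) * ψ (-u) + (if u = 0 then ((B - A : ℤ) : ℂ) else 0) := by
      intro u
      rw [e4 u]
      by_cases hu : u = 0
      · subst hu; simp
      · rw [if_neg hu, if_neg hu]; simp
    rw [Finset.sum_congr rfl (fun s _ => h1 s), Finset.sum_add_distrib, ← Finset.mul_sum, e6,
      Finset.sum_ite_eq' Finset.univ (0:F) (fun _ => ((B - A : ℤ) : ℂ))]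
    simp
  rw [e7]
  have hq : (Fintype.card F : ℂ) ≠ 0 := by
    exact_mod_cast Fintype.card_ne_zero
  have e8 : (B - A : ℤ) = -(Fintype.card F : ℤ) * A := by linarith
  rw [e8]
  push_cast
  field_simp

end Pool.Agent.HK.H81
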